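import Pool.Agent.V11246.Ctb
import Pool.Agent.V11246.Rec

/-!
# Forcings with the strong countable chain condition do not collapse the first uncountable cardinal

The proof is done inside an arbitrary model, with internal types.
-/

set_option maxHeartbeats 1000000
set_option linter.all false
set_option synthInstance.maxSize 2000

namespace Pool.Agent.Helper672.ZFA.H158CC

open FirstOrder FirstOrder.Language
open H635 (IWO)
open Pool.Agent.H310
open Pool.Agent.Helper672.ZFA.V246

universe u

section

variable {M : Type u} [L.Structure M] [hM : IsModel M]
variable {α β ι X K P : Type u} [ITy M α] [ITy M β] [ITy M ι] [ITy M X] [ITy M K] [ITy M P]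

theorem ctb_comap {Q : β → Prop} {R : α → Prop} (h : Ctb M R) {f : β → α} (hf : IntF M f)
    (hfi : ∀ a b, Q a → Q b → f a = f b → a = b) (hfP : ∀ b, Q b → R (f b)) : Ctb M Q := by
  obtain ⟨e, he, h1⟩ := h
  exact ⟨fun b => e (f b), he.comp hf, fun a b ha hb hab =>
    hfi a b ha hb (h1 _ _ (hfP a ha) (hfP b hb) hab)⟩

theorem ctb_prod {R : α → Prop} {Q : β → Prop} (h : Ctb M R) (h' : Ctb M Q) :
    Ctb M (fun q : α × β => R q.1 ∧ Q q.2) := by
  obtain ⟨e, he, h1⟩ := h
  obtain ⟨e', he', h1'⟩ := h'
  refine ⟨fun q => pr (e q.1) (e' q.2), IntF.pr (he.comp IntF.fst') (he'.comp IntF.snd'),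
    fun a b ha hb hab => ?_⟩
  obtain ⟨h2, h3⟩ := pr_inj hab
  exact Prod.ext (h1 _ _ ha.1 hb.1 h2) (h1' _ _ ha.2 hb.2 h3)

/-- Enumeration of the members of a family of subsets of a well-ordered type. -/
theorem exists_enum {ltX : X → X → Prop} (hX : IWO M X ltX) {lt : K → K → Prop}
    (hK : IWO M K lt) {A : ι → K → Prop} (hA : Int M (fun q : ι × K => A q.1 q.2)) (y₀ : K) :
    ∃ e : ι → X → K, IntF M (fun q : ι × X => e q.1 q.2) ∧
      ∀ i x, (∃ a, A i a ∧ ∀ y, ltX y x → e i y ≠ a) →
        A i (e i x) ∧ ∀ y, ltX y x → e i y ≠ e i x := by
  have hltX := hX.int
  have hr : Int M (fun q : (ι × IPow M (X × K)) × K => A q.1.1 q.2 ∧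
      ∀ y, ¬ ((y, q.2) ∈ q.1.2)) := by (repeat' (first | with_reducible exact IntF.id | with_reducible exact IntF.fst' | with_reducible exact IntF.snd' | with_reducible exact IntF.const _ | with_reducible exact Int.const _ | assumption | with_reducible apply Int.and | with_reducible apply Int.or | with_reducible apply Int.not | with_reducible apply Int.imp | with_reducible apply Int.iff | with_reducible apply Int.ne | with_reducible apply Int.eq | with_reducible apply Int.mem | with_reducible apply Int.subset | with_reducible apply Int.ltN | with_reducible apply Int.leN | with_reducible_and_instances apply Int.le | with_reducible_and_instances apply Int.lt | with_reducible apply Int.all | with_reducible apply Int.ex | with_reducible apply IntF.fst | with_reducible apply IntF.snd | with_reducible apply IntF.app | with_reducible apply IntF.inl | with_reducible apply IntF.inr | with_reducible_and_instances apply IntF.mul | with_reducible_and_instances apply IntF.inv | with_reducible_and_instances apply IntF.add | with_reducible_and_instances apply IntF.sub | with_reducible_and_instances apply IntF.neg | with_reducible_and_instances apply IntF.smul | with_reducible apply Int.fin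 | with_reducible apply IntF.sep | with_reducible apply IntF.lam | with_reducible apply IntF.insert | with_reducible apply IntF.singleton | with_reducible apply IntF.union | with_reducible apply IntF.iimage | with_reducible apply IntF.ite | with_reducible apply IntF.the | with_reducible apply IntF.irec | with_reducible apply IntF.succ | with_reducible apply IntF.val | with_reducible apply IntF.mk | (with_reducible refine Int.comp ?_ ?_; assumption) | (with_reducible refine Int.comp₂ ?_ ?_ ?_; assumption) | (with_reducible refine Int.comp₃ ?_ ?_ ?_ ?_; assumption) | (with_reducible refine Int.comp₄ ?_ ?_ ?_ ?_ ?_; assumption) | (with_reducible refine IntF.comp ?_ ?_; assumption) | (with_reducible refine IntF.comp₂ ?_ ?_ ?_; assumption) | (with_reducible refine IntF.comp₃ ?_ ?_ ?_ ?_; assumption) | with_reducible apply IntF.pair))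
  obtain ⟨φ, hφ, h1⟩ := exists_lf hK (γ := ι × IPow M (X × K))
    (r := fun c a => A c.1 a ∧ ∀ y, ¬ ((y, a) ∈ c.2)) hr y₀
  have hΦ : IntF M (fun q : (ι × X) × IPow M (X × K) => φ (q.1.1, q.2)) := by (repeat' (first | with_reducible exact IntF.id | with_reducible exact IntF.fst' | with_reducible exact IntF.snd' | with_reducible exact IntF.const _ | with_reducible exact Int.const _ | assumption | with_reducible apply Int.and | with_reducible apply Int.or | with_reducible apply Int.not | with_reducible apply Int.imp | with_reducible apply Int.iff | with_reducible apply Int.ne | with_reducible apply Int.eq | with_reducible apply Int.mem | with_reducible apply Int.subset | with_reducible apply Int.ltN | with_reducible apply Int.leN | with_reducible_and_instances apply Int.le | with_reducible_and_instances apply Int.lt | with_reducible apply Int.all | with_reducible apply Int.ex | with_reducible apply IntF.fst | with_reducible apply IntF.snd | with_reducible apply IntF.app | with_reducible apply IntF.inl | with_reducible apply IntF.inr | with_reducible_and_instances apply IntF.mul | with_reducible_and_instances apply IntF.inv | with_reducible_and_instances apply IntF.add | with_reducible_and_instances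 apply IntF.sub | with_reducible_and_instances apply IntF.neg | with_reducible_and_instances apply IntF.smul | with_reducible apply Int.fin | with_reducible apply IntF.sep | with_reducible apply IntF.lam | with_reducible apply IntF.insert | with_reducible apply IntF.singleton | with_reducible apply IntF.union | with_reducible apply IntF.iimage | with_reducible apply IntF.ite | with_reducible apply IntF.the | with_reducible apply IntF.irec | with_reducible apply IntF.succ | with_reducible apply IntF.val | with_reducible apply IntF.mk | (with_reducible refine Int.comp ?_ ?_; assumption) | (with_reducible refine Int.comp₂ ?_ ?_ ?_; assumption) | (with_reducible refine Int.comp₃ ?_ ?_ ?_ ?_; assumption) | (with_reducible refine Int.comp₄ ?_ ?_ ?_ ?_ ?_; assumption) | (with_reducible refine IntF.comp ?_ ?_; assumption) | (with_reducible refine IntF.comp₂ ?_ ?_ ?_; assumption) | (with_reducible refine IntF.comp₃ ?_ ?_ ?_ ?_; assumption) | with_reducible apply IntF.pair))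
  have hI := int_rcf hX (Φ := fun i _ s => φ (i, s)) hΦ y₀
  refine ⟨fun i x => rcf ltX (fun i _ s => φ (i, s)) y₀ i x, hI, fun i x hx => ?_⟩
  have hS : Int M (fun q : X × K => ltX q.1 x ∧
      rcf ltX (fun i _ s => φ (i, s)) y₀ i q.1 = q.2) := by
    refine Int.and ?_ (Int.eq ?_ IntF.snd')
    · exact Int.comp₂ (p := fun a b => ltX a b) hltX IntF.fst' (IntF.const x)
    · exact IntF.comp₂ (p := fun i c => rcf ltX (fun i _ s => φ (i, s)) y₀ i c) hI
        (IntF.const i) IntF.fst'
  have h2 := rcf_spec hX (Φ := fun i _ s => φ (i, s)) hΦ y₀ i x
  have h3 := h1 (i, sep M fun q : X × K => ltX q.1 x ∧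
      rcf ltX (fun i _ s => φ (i, s)) y₀ i q.1 = q.2) (by
    obtain ⟨a, ha, h4⟩ := hx
    refine ⟨a, ha, fun y hy => ?_⟩
    obtain ⟨h5, h6⟩ := (mem_sep hS).1 hy
    exact h4 y h5 h6)
  rw [← h2] at h3
  refine ⟨h3.1.1, fun y hy h4 => h3.1.2 y ((mem_sep hS).2 ⟨hy, h4⟩)⟩

variable {le : P → P → Prop}

/-- The set of the possible values of a name is countable. -/
theorem val_ctb (hle : Int M (fun q : P × P => le q.1 q.2)) (hrefl : ∀ p, le p p)
    (htrans : ∀ p q r, le p q → le q r → le p r)
    (hc : ∀ D : P → Prop, Int M D → (∀ p, ∃ d, D d ∧ ∃ r, le r p ∧ le r d) →
      ∃ C : P → Prop, Int M C ∧ (∀ p, C p → D p) ∧ Ctb M C ∧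
        ∀ p, ∃ d, C d ∧ ∃ r, le r p ∧ le r d)
    {N : P → K → Prop} (hN : Int M (fun q : P × K => N q.1 q.2)) (p₀ : P) (y₀ : K)
    (hmono : ∀ q r a, le r q → N q a → N r a)
    (hfun : ∀ q a b, le q p₀ → N q a → N q b → a = b)
    (htot : ∀ q, le q p₀ → ∃ r a, le r q ∧ N r a) :
    Ctb M (fun a => ∃ q, le q p₀ ∧ N q a) := by
  have hD : Int M (fun d : P => (le d p₀ ∧ ∃ a, N d a) ∨ ¬ ∃ r, le r d ∧ le r p₀) := by (repeat' (first | with_reducible exact IntF.id | with_reducible exact IntF.fst' | with_reducible exact IntF.snd' | with_reducible exact IntF.const _ | with_reducible exact Int.const _ | assumption | with_reducible apply Int.and | with_reducible apply Int.or | with_reducible apply Int.not | with_reducible apply Int.imp | with_reducible apply Int.iff | with_reducible apply Int.ne | with_reducible apply Int.eq | with_reducible apply Int.mem | with_reducible apply Int.subset | with_reducible apply Int.ltN | with_reducible apply Int.leN | with_reducible_and_instances apply Int.le | with_reducible_and_instances apply Int.lt | with_reducible apply Int.all | with_reducible apply Int.ex | with_reducible apply IntF.fst | with_reducible apply IntF.snd | with_reducible apply IntF.app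 | with_reducible apply IntF.inl | with_reducible apply IntF.inr | with_reducible_and_instances apply IntF.mul | with_reducible_and_instances apply IntF.inv | with_reducible_and_instances apply IntF.add | with_reducible_and_instances apply IntF.sub | with_reducible_and_instances apply IntF.neg | with_reducible_and_instances apply IntF.smul | with_reducible apply Int.fin | with_reducible apply IntF.sep | with_reducible apply IntF.lam | with_reducible apply IntF.insert | with_reducible apply IntF.singleton | with_reducible apply IntF.union | with_reducible apply IntF.iimage | with_reducible apply IntF.ite | with_reducible apply IntF.the | with_reducible apply IntF.irec | with_reducible apply IntF.succ | with_reducible apply IntF.val | with_reducible apply IntF.mk | (with_reducible refine Int.comp ?_ ?_; assumption) | (with_reducible refine Int.comp₂ ?_ ?_ ?_; assumption) | (with_reducible refine Int.comp₃ ?_ ?_ ?_ ?_; assumption) | (with_reducible refine Int.comp₄ ?_ ?_ ?_ ?_ ?_; assumption) | (with_reducible refine IntF.comp ?_ ?_; assumption) | (with_reducible refine IntF.comp₂ ?_ ?_ ?_; assumption) | (with_reducible refine IntF.comp₃ ?_ ?_ ?_ ?_; assumption) | with_reducible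 apply IntF.pair))
  obtain ⟨C, hC, hCD, hCc, hCp⟩ := hc _ hD (by
    intro p
    by_cases h : ∃ r, le r p ∧ le r p₀
    · obtain ⟨r, h1, h2⟩ := h
      obtain ⟨s, a, h3, h4⟩ := htot r h2
      exact ⟨s, Or.inl ⟨htrans _ _ _ h3 h2, a, h4⟩, s, htrans _ _ _ h3 h1, hrefl s⟩
    · exact ⟨p, Or.inr h, p, hrefl p, hrefl p⟩)
  have hf : IntF M (fun d : P => the (fun a => N d a) y₀) := by (repeat' (first | with_reducible exact IntF.id | with_reducible exact IntF.fst' | with_reducible exact IntF.snd' | with_reducible exact IntF.const _ | with_reducible exact Int.const _ | assumption | with_reducible apply Int.and | with_reducible apply Int.or | with_reducible apply Int.not | with_reducible apply Int.imp | with_reducible apply Int.iff | with_reducible apply Int.ne | with_reducible apply Int.eq | with_reducible apply Int.mem | with_reducible apply Int.subset | with_reducible apply Int.ltN | with_reducible apply Int.leN | with_reducible_and_instances apply Int.le | with_reducible_and_instances apply Int.lt | with_reducible apply Int.all | with_reducible apply Int.ex | with_reducible apply IntF.fst | with_reducible apply IntF.snd | with_reducible apply IntF.app | with_reducible apply IntF.inl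 | with_reducible apply IntF.inr | with_reducible_and_instances apply IntF.mul | with_reducible_and_instances apply IntF.inv | with_reducible_and_instances apply IntF.add | with_reducible_and_instances apply IntF.sub | with_reducible_and_instances apply IntF.neg | with_reducible_and_instances apply IntF.smul | with_reducible apply Int.fin | with_reducible apply IntF.sep | with_reducible apply IntF.lam | with_reducible apply IntF.insert | with_reducible apply IntF.singleton | with_reducible apply IntF.union | with_reducible apply IntF.iimage | with_reducible apply IntF.ite | with_reducible apply IntF.the | with_reducible apply IntF.irec | with_reducible apply IntF.succ | with_reducible apply IntF.val | with_reducible apply IntF.mk | (with_reducible refine Int.comp ?_ ?_; assumption) | (with_reducible refine Int.comp₂ ?_ ?_ ?_; assumption) | (with_reducible refine Int.comp₃ ?_ ?_ ?_ ?_; assumption) | (with_reducible refine Int.comp₄ ?_ ?_ ?_ ?_ ?_; assumption) | (with_reducible refine IntF.comp ?_ ?_; assumption) | (with_reducible refine IntF.comp₂ ?_ ?_ ?_; assumption) | (with_reducible refine IntF.comp₃ ?_ ?_ ?_ ?_; assumption) | with_reducible apply IntF.pair))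
  have hQ : Int M (fun d : P => C d ∧ le d p₀) := by (repeat' (first | with_reducible exact IntF.id | with_reducible exact IntF.fst' | with_reducible exact IntF.snd' | with_reducible exact IntF.const _ | with_reducible exact Int.const _ | assumption | with_reducible apply Int.and | with_reducible apply Int.or | with_reducible apply Int.not | with_reducible apply Int.imp | with_reducible apply Int.iff | with_reducible apply Int.ne | with_reducible apply Int.eq | with_reducible apply Int.mem | with_reducible apply Int.subset | with_reducible apply Int.ltN | with_reducible apply Int.leN | with_reducible_and_instances apply Int.le | with_reducible_and_instances apply Int.lt | with_reducible apply Int.all | with_reducible apply Int.ex | with_reducible apply IntF.fst | with_reducible apply IntF.snd | with_reducible apply IntF.app | with_reducible apply IntF.inl | with_reducible apply IntF.inr | with_reducible_and_instances apply IntF.mul | with_reducible_and_instances apply IntF.inv | with_reducible_and_instances apply IntF.add | with_reducible_and_instances apply IntF.sub | with_reducible_and_instances apply IntF.neg | with_reducible_and_instances apply IntF.smul | with_reducible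 apply Int.fin | with_reducible apply IntF.sep | with_reducible apply IntF.lam | with_reducible apply IntF.insert | with_reducible apply IntF.singleton | with_reducible apply IntF.union | with_reducible apply IntF.iimage | with_reducible apply IntF.ite | with_reducible apply IntF.the | with_reducible apply IntF.irec | with_reducible apply IntF.succ | with_reducible apply IntF.val | with_reducible apply IntF.mk | (with_reducible refine Int.comp ?_ ?_; assumption) | (with_reducible refine Int.comp₂ ?_ ?_ ?_; assumption) | (with_reducible refine Int.comp₃ ?_ ?_ ?_ ?_; assumption) | (with_reducible refine Int.comp₄ ?_ ?_ ?_ ?_ ?_; assumption) | (with_reducible refine IntF.comp ?_ ?_; assumption) | (with_reducible refine IntF.comp₂ ?_ ?_ ?_; assumption) | (with_reducible refine IntF.comp₃ ?_ ?_ ?_ ?_; assumption) | with_reducible apply IntF.pair))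
  refine ((hCc.mono (P := fun d => C d ∧ le d p₀) fun d hd => hd.1).image hQ hf).mono ?_
  rintro a ⟨q, hq, h1⟩
  obtain ⟨c, hcC, r, hrq, hrc⟩ := hCp q
  rcases hCD c hcC with ⟨h2, a', h3⟩ | h2
  · have h4 := hfun r a a' (htrans _ _ _ hrq hq) (hmono _ _ _ hrq h1) (hmono _ _ _ hrc h3)
    subst h4
    exact ⟨c, ⟨hcC, h2⟩, the_eq ⟨a, h3, fun b hb => hfun c b a h2 hb h3⟩ h3⟩
  · exact absurd ⟨r, hrc, htrans _ _ _ hrq hq⟩ h2

/-- A forcing with the strong countable chain condition does not add a surjection from the
natural numbers to the first uncountable cardinal. -/
theorem no_collapse {lt : K → K → Prop} (hK : IWO M K lt) (hu : ¬ Ctb M (fun _ : K => True))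
    (hi : ∀ a : K, Ctb M (fun x => lt x a))
    (hle : Int M (fun q : P × P => le q.1 q.2)) (hrefl : ∀ p, le p p)
    (htrans : ∀ p q r, le p q → le q r → le p r)
    (hc : ∀ D : P → Prop, Int M D → (∀ p, ∃ d, D d ∧ ∃ r, le r p ∧ le r d) →
      ∃ C : P → Prop, Int M C ∧ (∀ p, C p → D p) ∧ Ctb M C ∧
        ∀ p, ∃ d, C d ∧ ∃ r, le r p ∧ le r d)
    {dec : P → INat M → K → Prop}
    (hdec : Int M (fun q : (P × INat M) × K => dec q.1.1 q.1.2 q.2)) (p₀ : P)
    (hmono : ∀ q r n a, le r q → dec q n a → dec r n a)
    (hfun : ∀ q n a b, le q p₀ → dec q n a → dec q n b → a = b)
    (htot : ∀ q n, le q p₀ → ∃ r a, le r q ∧ dec r n a)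
    (hont : ∀ q a, le q p₀ → ∃ r n, le r q ∧ dec r n a) : False := by
  have hlt := hK.int
  have hne : Nonempty K := by
    by_contra h
    exact hu ⟨fun _ => 0, IntF.const _, fun a => absurd ⟨a⟩ h⟩
  obtain ⟨y₀⟩ := hne
  have hNN : IWO M (INat M) (fun a b => a < b) := iwoNn
  -- the possible values
  obtain ⟨V, hV⟩ : ∃ V : INat M → K → Prop, ∀ k a, V k a ↔ ∃ q, le q p₀ ∧ dec q k a :=
    ⟨_, fun _ _ => Iff.rfl⟩
  have hVI : Int M (fun q : INat M × K => V q.1 q.2) := by
    refine Int.congr (p := fun q : INat M × K => ∃ r, le r p₀ ∧ dec r q.1 q.2) ?_
      fun q => (hV _ _).symm
    (repeat' (first | with_reducible exact IntF.id | with_reducible exact IntF.fst' | with_reducible exact IntF.snd' | with_reducible exact IntF.const _ | with_reducible exact Int.const _ | assumption | with_reducible apply Int.and | with_reducible apply Int.or | with_reducible apply Int.not | with_reducible apply Int.imp | with_reducible apply Int.iff | with_reducible apply Int.ne | with_reducible apply Int.eq | with_reducible apply Int.mem | with_reducible apply Int.subset | with_reducible apply Int.ltN | with_reducible apply Int.leN | with_reducible_and_instances apply Int.le | with_reducible_and_instances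 apply Int.lt | with_reducible apply Int.all | with_reducible apply Int.ex | with_reducible apply IntF.fst | with_reducible apply IntF.snd | with_reducible apply IntF.app | with_reducible apply IntF.inl | with_reducible apply IntF.inr | with_reducible_and_instances apply IntF.mul | with_reducible_and_instances apply IntF.inv | with_reducible_and_instances apply IntF.add | with_reducible_and_instances apply IntF.sub | with_reducible_and_instances apply IntF.neg | with_reducible_and_instances apply IntF.smul | with_reducible apply Int.fin | with_reducible apply IntF.sep | with_reducible apply IntF.lam | with_reducible apply IntF.insert | with_reducible apply IntF.singleton | with_reducible apply IntF.union | with_reducible apply IntF.iimage | with_reducible apply IntF.ite | with_reducible apply IntF.the | with_reducible apply IntF.irec | with_reducible apply IntF.succ | with_reducible apply IntF.val | with_reducible apply IntF.mk | (with_reducible refine Int.comp ?_ ?_; assumption) | (with_reducible refine Int.comp₂ ?_ ?_ ?_; assumption) | (with_reducible refine Int.comp₃ ?_ ?_ ?_ ?_; assumption) | (with_reducible refine Int.comp₄ ?_ ?_ ?_ ?_ ?_; assumption) | (with_reducible refine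 IntF.comp ?_ ?_; assumption) | (with_reducible refine IntF.comp₂ ?_ ?_ ?_; assumption) | (with_reducible refine IntF.comp₃ ?_ ?_ ?_ ?_; assumption) | with_reducible apply IntF.pair))
  obtain ⟨e₂, he₂, h1⟩ := exists_enum hNN hK hVI y₀
  have hall : Ctb M (fun q : INat M × INat M => True ∧ True) := ctb_prod Ctb.nat Ctb.nat
  obtain ⟨k₀, hk₀⟩ : ∃ k₀, ∀ n, ∃ a, V k₀ a ∧ ∀ m, m < n → e₂ k₀ m ≠ a := by
    by_contra hcon
    push Not at hcon
    refine hu (((hall.image (Int.const _) he₂)).mono fun a _ => ?_)
    obtain ⟨r, n, h2, h3⟩ := hont p₀ a (hrefl _)
    obtain ⟨m, h4⟩ := hcon n
    obtain ⟨l, -, h5⟩ := h4 a ((hV _ _).2 ⟨r, h2, h3⟩)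
    exact ⟨(n, l), ⟨trivial, trivial⟩, h5⟩
  obtain ⟨b, hb⟩ : ∃ b : INat M → K, ∀ n, b n = e₂ k₀ n := ⟨_, fun _ => rfl⟩
  have hbI : IntF M b := by
    have h2 : IntF M (fun n => e₂ k₀ n) := by (repeat' (first | with_reducible exact IntF.id | with_reducible exact IntF.fst' | with_reducible exact IntF.snd' | with_reducible exact IntF.const _ | with_reducible exact Int.const _ | assumption | with_reducible apply Int.and | with_reducible apply Int.or | with_reducible apply Int.not | with_reducible apply Int.imp | with_reducible apply Int.iff | with_reducible apply Int.ne | with_reducible apply Int.eq | with_reducible apply Int.mem | with_reducible apply Int.subset | with_reducible apply Int.ltN | with_reducible apply Int.leN | with_reducible_and_instances apply Int.le | with_reducible_and_instances apply Int.lt | with_reducible apply Int.all | with_reducible apply Int.ex | with_reducible apply IntF.fst | with_reducible apply IntF.snd | with_reducible apply IntF.app | with_reducible apply IntF.inl | with_reducible apply IntF.inr | with_reducible_and_instances apply IntF.mul | with_reducible_and_instances apply IntF.inv | with_reducible_and_instances apply IntF.add | with_reducible_and_instances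 apply IntF.sub | with_reducible_and_instances apply IntF.neg | with_reducible_and_instances apply IntF.smul | with_reducible apply Int.fin | with_reducible apply IntF.sep | with_reducible apply IntF.lam | with_reducible apply IntF.insert | with_reducible apply IntF.singleton | with_reducible apply IntF.union | with_reducible apply IntF.iimage | with_reducible apply IntF.ite | with_reducible apply IntF.the | with_reducible apply IntF.irec | with_reducible apply IntF.succ | with_reducible apply IntF.val | with_reducible apply IntF.mk | (with_reducible refine Int.comp ?_ ?_; assumption) | (with_reducible refine Int.comp₂ ?_ ?_ ?_; assumption) | (with_reducible refine Int.comp₃ ?_ ?_ ?_ ?_; assumption) | (with_reducible refine Int.comp₄ ?_ ?_ ?_ ?_ ?_; assumption) | (with_reducible refine IntF.comp ?_ ?_; assumption) | (with_reducible refine IntF.comp₂ ?_ ?_ ?_; assumption) | (with_reducible refine IntF.comp₃ ?_ ?_ ?_ ?_; assumption) | with_reducible apply IntF.pair))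
    have h3 : b = fun n => e₂ k₀ n := funext hb
    rw [h3]
    exact h2
  have hbV : ∀ n, V k₀ (b n) := fun n => by
    rw [hb]
    exact (h1 k₀ n (hk₀ n)).1
  have hbi : ∀ m n, b m = b n → m = n := by
    intro m n hmn
    rw [hb, hb] at hmn
    rcases lt_trichotomy m n with h2 | h2 | h2
    · exact absurd hmn ((h1 k₀ n (hk₀ n)).2 m h2)
    · exact h2
    · exact absurd hmn.symm ((h1 k₀ m (hk₀ m)).2 n h2)
  -- the values below the events
  obtain ⟨W, hW⟩ : ∃ W : INat M × INat M → K → Prop, ∀ i a, W i a ↔
      ∃ q, le q p₀ ∧ dec q k₀ (b i.1) ∧ dec q i.2 a := ⟨_, fun _ _ => Iff.rfl⟩
  have hWI : Int M (fun q : (INat M × INat M) × K => W q.1 q.2) := by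
    refine Int.congr (p := fun q : (INat M × INat M) × K => ∃ r, le r p₀ ∧
      dec r k₀ (b q.1.1) ∧ dec r q.1.2 q.2) ?_ fun q => (hW _ _).symm
    (repeat' (first | with_reducible exact IntF.id | with_reducible exact IntF.fst' | with_reducible exact IntF.snd' | with_reducible exact IntF.const _ | with_reducible exact Int.const _ | assumption | with_reducible apply Int.and | with_reducible apply Int.or | with_reducible apply Int.not | with_reducible apply Int.imp | with_reducible apply Int.iff | with_reducible apply Int.ne | with_reducible apply Int.eq | with_reducible apply Int.mem | with_reducible apply Int.subset | with_reducible apply Int.ltN | with_reducible apply Int.leN | with_reducible_and_instances apply Int.le | with_reducible_and_instances apply Int.lt | with_reducible apply Int.all | with_reducible apply Int.ex | with_reducible apply IntF.fst | with_reducible apply IntF.snd | with_reducible apply IntF.app | with_reducible apply IntF.inl | with_reducible apply IntF.inr | with_reducible_and_instances apply IntF.mul | with_reducible_and_instances apply IntF.inv | with_reducible_and_instances apply IntF.add | with_reducible_and_instances apply IntF.sub | with_reducible_and_instances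 apply IntF.neg | with_reducible_and_instances apply IntF.smul | with_reducible apply Int.fin | with_reducible apply IntF.sep | with_reducible apply IntF.lam | with_reducible apply IntF.insert | with_reducible apply IntF.singleton | with_reducible apply IntF.union | with_reducible apply IntF.iimage | with_reducible apply IntF.ite | with_reducible apply IntF.the | with_reducible apply IntF.irec | with_reducible apply IntF.succ | with_reducible apply IntF.val | with_reducible apply IntF.mk | (with_reducible refine Int.comp ?_ ?_; assumption) | (with_reducible refine Int.comp₂ ?_ ?_ ?_; assumption) | (with_reducible refine Int.comp₃ ?_ ?_ ?_ ?_; assumption) | (with_reducible refine Int.comp₄ ?_ ?_ ?_ ?_ ?_; assumption) | (with_reducible refine IntF.comp ?_ ?_; assumption) | (with_reducible refine IntF.comp₂ ?_ ?_ ?_; assumption) | (with_reducible refine IntF.comp₃ ?_ ?_ ?_ ?_; assumption) | with_reducible apply IntF.pair))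
  have hWc : ∀ n a, ∃ k, W (n, k) a := by
    intro n a
    obtain ⟨q, hq, h2⟩ := (hV _ _).1 (hbV n)
    obtain ⟨r, k, hr, h3⟩ := hont q a hq
    exact ⟨k, (hW _ _).2 ⟨r, htrans _ _ _ hr hq, hmono _ _ _ _ hr h2, h3⟩⟩
  have hVc : ∀ k, Ctb M (fun a => V k a) := by
    intro k
    have hN : Int M (fun q : P × K => dec q.1 k q.2) := by (repeat' (first | with_reducible exact IntF.id | with_reducible exact IntF.fst' | with_reducible exact IntF.snd' | with_reducible exact IntF.const _ | with_reducible exact Int.const _ | assumption | with_reducible apply Int.and | with_reducible apply Int.or | with_reducible apply Int.not | with_reducible apply Int.imp | with_reducible apply Int.iff | with_reducible apply Int.ne | with_reducible apply Int.eq | with_reducible apply Int.mem | with_reducible apply Int.subset | with_reducible apply Int.ltN | with_reducible apply Int.leN | with_reducible_and_instances apply Int.le | with_reducible_and_instances apply Int.lt | with_reducible apply Int.all | with_reducible apply Int.ex | with_reducible apply IntF.fst | with_reducible apply IntF.snd | with_reducible apply IntF.app | with_reducible apply IntF.inl | with_reducible apply IntF.inr | with_reducible_and_instances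 apply IntF.mul | with_reducible_and_instances apply IntF.inv | with_reducible_and_instances apply IntF.add | with_reducible_and_instances apply IntF.sub | with_reducible_and_instances apply IntF.neg | with_reducible_and_instances apply IntF.smul | with_reducible apply Int.fin | with_reducible apply IntF.sep | with_reducible apply IntF.lam | with_reducible apply IntF.insert | with_reducible apply IntF.singleton | with_reducible apply IntF.union | with_reducible apply IntF.iimage | with_reducible apply IntF.ite | with_reducible apply IntF.the | with_reducible apply IntF.irec | with_reducible apply IntF.succ | with_reducible apply IntF.val | with_reducible apply IntF.mk | (with_reducible refine Int.comp ?_ ?_; assumption) | (with_reducible refine Int.comp₂ ?_ ?_ ?_; assumption) | (with_reducible refine Int.comp₃ ?_ ?_ ?_ ?_; assumption) | (with_reducible refine Int.comp₄ ?_ ?_ ?_ ?_ ?_; assumption) | (with_reducible refine IntF.comp ?_ ?_; assumption) | (with_reducible refine IntF.comp₂ ?_ ?_ ?_; assumption) | (with_reducible refine IntF.comp₃ ?_ ?_ ?_ ?_; assumption) | with_reducible apply IntF.pair))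
    refine (val_ctb hle hrefl htrans hc hN p₀ y₀ (fun q r a h h' => hmono q r k a h h')
      (fun q a a' h h' h'' => hfun q k a a' h h' h'') (fun q h => htot q k h)).mono fun a ha =>
      (hV _ _).1 ha
  obtain ⟨e, he, h2⟩ := exists_enum hK hK hWI y₀
  obtain ⟨D, hD⟩ : ∃ D : INat M × INat M → K → Prop, ∀ i x, D i x ↔
      ∃ a, W i a ∧ ∀ y, lt y x → e i y ≠ a := ⟨_, fun _ _ => Iff.rfl⟩
  have hDI : Int M (fun q : (INat M × INat M) × K => D q.1 q.2) := by
    refine Int.congr (p := fun q : (INat M × INat M) × K => ∃ a, W q.1 a ∧
      ∀ y, lt y q.2 → e q.1 y ≠ a) ?_ fun q => (hD _ _).symm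
    (repeat' (first | with_reducible exact IntF.id | with_reducible exact IntF.fst' | with_reducible exact IntF.snd' | with_reducible exact IntF.const _ | with_reducible exact Int.const _ | assumption | with_reducible apply Int.and | with_reducible apply Int.or | with_reducible apply Int.not | with_reducible apply Int.imp | with_reducible apply Int.iff | with_reducible apply Int.ne | with_reducible apply Int.eq | with_reducible apply Int.mem | with_reducible apply Int.subset | with_reducible apply Int.ltN | with_reducible apply Int.leN | with_reducible_and_instances apply Int.le | with_reducible_and_instances apply Int.lt | with_reducible apply Int.all | with_reducible apply Int.ex | with_reducible apply IntF.fst | with_reducible apply IntF.snd | with_reducible apply IntF.app | with_reducible apply IntF.inl | with_reducible apply IntF.inr | with_reducible_and_instances apply IntF.mul | with_reducible_and_instances apply IntF.inv | with_reducible_and_instances apply IntF.add | with_reducible_and_instances apply IntF.sub | with_reducible_and_instances apply IntF.neg | with_reducible_and_instances apply IntF.smul | with_reducible apply Int.fin | with_reducible apply IntF.sep |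 with_reducible apply IntF.lam | with_reducible apply IntF.insert | with_reducible apply IntF.singleton | with_reducible apply IntF.union | with_reducible apply IntF.iimage | with_reducible apply IntF.ite | with_reducible apply IntF.the | with_reducible apply IntF.irec | with_reducible apply IntF.succ | with_reducible apply IntF.val | with_reducible apply IntF.mk | (with_reducible refine Int.comp ?_ ?_; assumption) | (with_reducible refine Int.comp₂ ?_ ?_ ?_; assumption) | (with_reducible refine Int.comp₃ ?_ ?_ ?_ ?_; assumption) | (with_reducible refine Int.comp₄ ?_ ?_ ?_ ?_ ?_; assumption) | (with_reducible refine IntF.comp ?_ ?_; assumption) | (with_reducible refine IntF.comp₂ ?_ ?_ ?_; assumption) | (with_reducible refine IntF.comp₃ ?_ ?_ ?_ ?_; assumption) | with_reducible apply IntF.pair))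
  have hdown : ∀ i x y, lt y x → D i x → D i y := by
    intro i x y hyx h3
    obtain ⟨a, h4, h5⟩ := (hD _ _).1 h3
    exact (hD _ _).2 ⟨a, h4, fun z hz => h5 z (iwo_trans hK hz hyx)⟩
  have hW' : ∀ i x, D i x → W i (e i x) := fun i x h3 => (h2 i x ((hD _ _).1 h3)).1
  have hinj : ∀ i x y, D i x → D i y → e i x = e i y → x = y := by
    intro i x y hx hy hxy
    rcases hK.tri x y with h3 | h3 | h3
    · exact absurd hxy ((h2 i y ((hD _ _).1 hy)).2 x h3)
    · exact h3
    · exact absurd hxy.symm ((h2 i x ((hD _ _).1 hx)).2 y h3)
  -- the order types are countable
  have hsm : ∀ i, ∃ x, ¬ D i x := by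
    intro i
    by_contra hcon
    push Not at hcon
    have h3 : IntF M (fun x : K => e i x) := by (repeat' (first | with_reducible exact IntF.id | with_reducible exact IntF.fst' | with_reducible exact IntF.snd' | with_reducible exact IntF.const _ | with_reducible exact Int.const _ | assumption | with_reducible apply Int.and | with_reducible apply Int.or | with_reducible apply Int.not | with_reducible apply Int.imp | with_reducible apply Int.iff | with_reducible apply Int.ne | with_reducible apply Int.eq | with_reducible apply Int.mem | with_reducible apply Int.subset | with_reducible apply Int.ltN | with_reducible apply Int.leN | with_reducible_and_instances apply Int.le | with_reducible_and_instances apply Int.lt | with_reducible apply Int.all | with_reducible apply Int.ex | with_reducible apply IntF.fst | with_reducible apply IntF.snd | with_reducible apply IntF.app | with_reducible apply IntF.inl | with_reducible apply IntF.inr | with_reducible_and_instances apply IntF.mul | with_reducible_and_instances apply IntF.inv | with_reducible_and_instances apply IntF.add | with_reducible_and_instances apply IntF.sub | with_reducible_and_instances apply IntF.neg | with_reducible_and_instances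 apply IntF.smul | with_reducible apply Int.fin | with_reducible apply IntF.sep | with_reducible apply IntF.lam | with_reducible apply IntF.insert | with_reducible apply IntF.singleton | with_reducible apply IntF.union | with_reducible apply IntF.iimage | with_reducible apply IntF.ite | with_reducible apply IntF.the | with_reducible apply IntF.irec | with_reducible apply IntF.succ | with_reducible apply IntF.val | with_reducible apply IntF.mk | (with_reducible refine Int.comp ?_ ?_; assumption) | (with_reducible refine Int.comp₂ ?_ ?_ ?_; assumption) | (with_reducible refine Int.comp₃ ?_ ?_ ?_ ?_; assumption) | (with_reducible refine Int.comp₄ ?_ ?_ ?_ ?_ ?_; assumption) | (with_reducible refine IntF.comp ?_ ?_; assumption) | (with_reducible refine IntF.comp₂ ?_ ?_ ?_; assumption) | (with_reducible refine IntF.comp₃ ?_ ?_ ?_ ?_; assumption) | with_reducible apply IntF.pair))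
    refine hu (ctb_comap (hVc i.2) h3 (fun x y _ _ => hinj i x y (hcon x) (hcon y)) fun x _ => ?_)
    obtain ⟨q, h4, -, h5⟩ := (hW _ _).1 (hW' i x (hcon x))
    exact (hV _ _).2 ⟨q, h4, h5⟩
  -- and unbounded
  have hub : ∀ n x, ∃ k, D (n, k) x := by
    intro n x
    by_contra hcon
    push Not at hcon
    have h3 : IntF M (fun q : INat M × K => e (n, q.1) q.2) := by (repeat' (first | with_reducible exact IntF.id | with_reducible exact IntF.fst' | with_reducible exact IntF.snd' | with_reducible exact IntF.const _ | with_reducible exact Int.const _ | assumption | with_reducible apply Int.and | with_reducible apply Int.or | with_reducible apply Int.not | with_reducible apply Int.imp | with_reducible apply Int.iff | with_reducible apply Int.ne | with_reducible apply Int.eq | with_reducible apply Int.mem | with_reducible apply Int.subset | with_reducible apply Int.ltN | with_reducible apply Int.leN | with_reducible_and_instances apply Int.le | with_reducible_and_instances apply Int.lt | with_reducible apply Int.all | with_reducible apply Int.ex | with_reducible apply IntF.fst | with_reducible apply IntF.snd | with_reducible apply IntF.app | with_reducible apply IntF.inl | with_reducible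 apply IntF.inr | with_reducible_and_instances apply IntF.mul | with_reducible_and_instances apply IntF.inv | with_reducible_and_instances apply IntF.add | with_reducible_and_instances apply IntF.sub | with_reducible_and_instances apply IntF.neg | with_reducible_and_instances apply IntF.smul | with_reducible apply Int.fin | with_reducible apply IntF.sep | with_reducible apply IntF.lam | with_reducible apply IntF.insert | with_reducible apply IntF.singleton | with_reducible apply IntF.union | with_reducible apply IntF.iimage | with_reducible apply IntF.ite | with_reducible apply IntF.the | with_reducible apply IntF.irec | with_reducible apply IntF.succ | with_reducible apply IntF.val | with_reducible apply IntF.mk | (with_reducible refine Int.comp ?_ ?_; assumption) | (with_reducible refine Int.comp₂ ?_ ?_ ?_; assumption) | (with_reducible refine Int.comp₃ ?_ ?_ ?_ ?_; assumption) | (with_reducible refine Int.comp₄ ?_ ?_ ?_ ?_ ?_; assumption) | (with_reducible refine IntF.comp ?_ ?_; assumption) | (with_reducible refine IntF.comp₂ ?_ ?_ ?_; assumption) | (with_reducible refine IntF.comp₃ ?_ ?_ ?_ ?_; assumption) | with_reducible apply IntF.pair))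
    have h4 : Int M (fun q : INat M × K => True ∧ lt q.2 x) := by (repeat' (first | with_reducible exact IntF.id | with_reducible exact IntF.fst' | with_reducible exact IntF.snd' | with_reducible exact IntF.const _ | with_reducible exact Int.const _ | assumption | with_reducible apply Int.and | with_reducible apply Int.or | with_reducible apply Int.not | with_reducible apply Int.imp | with_reducible apply Int.iff | with_reducible apply Int.ne | with_reducible apply Int.eq | with_reducible apply Int.mem | with_reducible apply Int.subset | with_reducible apply Int.ltN | with_reducible apply Int.leN | with_reducible_and_instances apply Int.le | with_reducible_and_instances apply Int.lt | with_reducible apply Int.all | with_reducible apply Int.ex | with_reducible apply IntF.fst | with_reducible apply IntF.snd | with_reducible apply IntF.app | with_reducible apply IntF.inl | with_reducible apply IntF.inr | with_reducible_and_instances apply IntF.mul | with_reducible_and_instances apply IntF.inv | with_reducible_and_instances apply IntF.add | with_reducible_and_instances apply IntF.sub | with_reducible_and_instances apply IntF.neg | with_reducible_and_instances apply IntF.smul | with_reducible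 apply Int.fin | with_reducible apply IntF.sep | with_reducible apply IntF.lam | with_reducible apply IntF.insert | with_reducible apply IntF.singleton | with_reducible apply IntF.union | with_reducible apply IntF.iimage | with_reducible apply IntF.ite | with_reducible apply IntF.the | with_reducible apply IntF.irec | with_reducible apply IntF.succ | with_reducible apply IntF.val | with_reducible apply IntF.mk | (with_reducible refine Int.comp ?_ ?_; assumption) | (with_reducible refine Int.comp₂ ?_ ?_ ?_; assumption) | (with_reducible refine Int.comp₃ ?_ ?_ ?_ ?_; assumption) | (with_reducible refine Int.comp₄ ?_ ?_ ?_ ?_ ?_; assumption) | (with_reducible refine IntF.comp ?_ ?_; assumption) | (with_reducible refine IntF.comp₂ ?_ ?_ ?_; assumption) | (with_reducible refine IntF.comp₃ ?_ ?_ ?_ ?_; assumption) | with_reducible apply IntF.pair))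
    refine hu (((ctb_prod Ctb.nat (hi x)).image h4 h3).mono fun a _ => ?_)
    obtain ⟨k, h5⟩ := hWc n a
    by_contra h6
    refine hcon k ((hD _ _).2 ⟨a, h5, fun y hy h7 => h6 ⟨(k, y), ⟨trivial, hy⟩, h7⟩⟩)
  have hg0 : Int M (fun q : INat M × K => ¬ D (0, q.1) q.2) := by (repeat' (first | with_reducible exact IntF.id | with_reducible exact IntF.fst' | with_reducible exact IntF.snd' | with_reducible exact IntF.const _ | with_reducible exact Int.const _ | assumption | with_reducible apply Int.and | with_reducible apply Int.or | with_reducible apply Int.not | with_reducible apply Int.imp | with_reducible apply Int.iff | with_reducible apply Int.ne | with_reducible apply Int.eq | with_reducible apply Int.mem | with_reducible apply Int.subset | with_reducible apply Int.ltN | with_reducible apply Int.leN | with_reducible_and_instances apply Int.le | with_reducible_and_instances apply Int.lt | with_reducible apply Int.all | with_reducible apply Int.ex | with_reducible apply IntF.fst | with_reducible apply IntF.snd | with_reducible apply IntF.app | with_reducible apply IntF.inl | with_reducible apply IntF.inr | with_reducible_and_instances apply IntF.mul | with_reducible_and_instances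 apply IntF.inv | with_reducible_and_instances apply IntF.add | with_reducible_and_instances apply IntF.sub | with_reducible_and_instances apply IntF.neg | with_reducible_and_instances apply IntF.smul | with_reducible apply Int.fin | with_reducible apply IntF.sep | with_reducible apply IntF.lam | with_reducible apply IntF.insert | with_reducible apply IntF.singleton | with_reducible apply IntF.union | with_reducible apply IntF.iimage | with_reducible apply IntF.ite | with_reducible apply IntF.the | with_reducible apply IntF.irec | with_reducible apply IntF.succ | with_reducible apply IntF.val | with_reducible apply IntF.mk | (with_reducible refine Int.comp ?_ ?_; assumption) | (with_reducible refine Int.comp₂ ?_ ?_ ?_; assumption) | (with_reducible refine Int.comp₃ ?_ ?_ ?_ ?_; assumption) | (with_reducible refine Int.comp₄ ?_ ?_ ?_ ?_ ?_; assumption) | (with_reducible refine IntF.comp ?_ ?_; assumption) | (with_reducible refine IntF.comp₂ ?_ ?_ ?_; assumption) | (with_reducible refine IntF.comp₃ ?_ ?_ ?_ ?_; assumption) | with_reducible apply IntF.pair))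
  obtain ⟨g, hg, h3⟩ := exists_lf hK (γ := INat M) (r := fun k x => ¬ D (0, k) x) hg0 y₀
  have hgc : ∀ x, ∃ k, lt x (g k) := by
    intro x
    obtain ⟨k, hk⟩ := hub 0 x
    refine ⟨k, ?_⟩
    have h4 := (h3 k (hsm _)).1
    rcases hK.tri x (g k) with h5 | h5 | h5
    · exact h5
    · exact absurd (h5 ▸ hk) h4
    · exact absurd (hdown _ _ _ h5 hk) h4
  have hkk0 : Int M (fun q : INat M × INat M => D (q.1, q.2) (g q.1)) := by (repeat' (first | with_reducible exact IntF.id | with_reducible exact IntF.fst' | with_reducible exact IntF.snd' | with_reducible exact IntF.const _ | with_reducible exact Int.const _ | assumption | with_reducible apply Int.and | with_reducible apply Int.or | with_reducible apply Int.not | with_reducible apply Int.imp | with_reducible apply Int.iff | with_reducible apply Int.ne | with_reducible apply Int.eq | with_reducible apply Int.mem | with_reducible apply Int.subset | with_reducible apply Int.ltN | with_reducible apply Int.leN | with_reducible_and_instances apply Int.le | with_reducible_and_instances apply Int.lt | with_reducible apply Int.all | with_reducible apply Int.ex | with_reducible apply IntF.fst | with_reducible apply IntF.snd | with_reducible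 apply IntF.app | with_reducible apply IntF.inl | with_reducible apply IntF.inr | with_reducible_and_instances apply IntF.mul | with_reducible_and_instances apply IntF.inv | with_reducible_and_instances apply IntF.add | with_reducible_and_instances apply IntF.sub | with_reducible_and_instances apply IntF.neg | with_reducible_and_instances apply IntF.smul | with_reducible apply Int.fin | with_reducible apply IntF.sep | with_reducible apply IntF.lam | with_reducible apply IntF.insert | with_reducible apply IntF.singleton | with_reducible apply IntF.union | with_reducible apply IntF.iimage | with_reducible apply IntF.ite | with_reducible apply IntF.the | with_reducible apply IntF.irec | with_reducible apply IntF.succ | with_reducible apply IntF.val | with_reducible apply IntF.mk | (with_reducible refine Int.comp ?_ ?_; assumption) | (with_reducible refine Int.comp₂ ?_ ?_ ?_; assumption) | (with_reducible refine Int.comp₃ ?_ ?_ ?_ ?_; assumption) | (with_reducible refine Int.comp₄ ?_ ?_ ?_ ?_ ?_; assumption) | (with_reducible refine IntF.comp ?_ ?_; assumption) | (with_reducible refine IntF.comp₂ ?_ ?_ ?_; assumption) | (with_reducible refine IntF.comp₃ ?_ ?_ ?_ ?_; assumption) |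 with_reducible apply IntF.pair))
  obtain ⟨kk, hkk, h4⟩ := exists_lf hNN (γ := INat M) (r := fun n k => D (n, k) (g n)) hkk0 0
  have hkD : ∀ n, D (n, kk n) (g n) := fun n => (h4 n (hub n _)).1
  -- the name
  have hN : Int M (fun q : P × K => (∃ n, dec q.1 k₀ (b n) ∧ dec q.1 (kk n) q.2) ∨
      ((∃ c, dec q.1 k₀ c ∧ ∀ n, c ≠ b n) ∧ q.2 = y₀)) := by (repeat' (first | with_reducible exact IntF.id | with_reducible exact IntF.fst' | with_reducible exact IntF.snd' | with_reducible exact IntF.const _ | with_reducible exact Int.const _ | assumption | with_reducible apply Int.and | with_reducible apply Int.or | with_reducible apply Int.not | with_reducible apply Int.imp | with_reducible apply Int.iff | with_reducible apply Int.ne | with_reducible apply Int.eq | with_reducible apply Int.mem | with_reducible apply Int.subset | with_reducible apply Int.ltN | with_reducible apply Int.leN | with_reducible_and_instances apply Int.le | with_reducible_and_instances apply Int.lt | with_reducible apply Int.all | with_reducible apply Int.ex | with_reducible apply IntF.fst | with_reducible apply IntF.snd | with_reducible apply IntF.app | with_reducible apply IntF.inl | with_reducible apply IntF.inr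 | with_reducible_and_instances apply IntF.mul | with_reducible_and_instances apply IntF.inv | with_reducible_and_instances apply IntF.add | with_reducible_and_instances apply IntF.sub | with_reducible_and_instances apply IntF.neg | with_reducible_and_instances apply IntF.smul | with_reducible apply Int.fin | with_reducible apply IntF.sep | with_reducible apply IntF.lam | with_reducible apply IntF.insert | with_reducible apply IntF.singleton | with_reducible apply IntF.union | with_reducible apply IntF.iimage | with_reducible apply IntF.ite | with_reducible apply IntF.the | with_reducible apply IntF.irec | with_reducible apply IntF.succ | with_reducible apply IntF.val | with_reducible apply IntF.mk | (with_reducible refine Int.comp ?_ ?_; assumption) | (with_reducible refine Int.comp₂ ?_ ?_ ?_; assumption) | (with_reducible refine Int.comp₃ ?_ ?_ ?_ ?_; assumption) | (with_reducible refine Int.comp₄ ?_ ?_ ?_ ?_ ?_; assumption) | (with_reducible refine IntF.comp ?_ ?_; assumption) | (with_reducible refine IntF.comp₂ ?_ ?_ ?_; assumption) | (with_reducible refine IntF.comp₃ ?_ ?_ ?_ ?_; assumption) | with_reducible apply IntF.pair))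
  have hNc := val_ctb hle hrefl htrans hc
    (N := fun q a => (∃ n, dec q k₀ (b n) ∧ dec q (kk n) a) ∨
      ((∃ c, dec q k₀ c ∧ ∀ n, c ≠ b n) ∧ a = y₀)) hN p₀ y₀ (by
    rintro q r a hr (⟨n, h5, h6⟩ | ⟨⟨c, h5, h6⟩, h7⟩)
    · exact Or.inl ⟨n, hmono _ _ _ _ hr h5, hmono _ _ _ _ hr h6⟩
    · exact Or.inr ⟨⟨c, hmono _ _ _ _ hr h5, h6⟩, h7⟩) (by
    rintro q a a' hq (⟨n, h5, h6⟩ | ⟨⟨c, h5, h6⟩, h7⟩) (⟨n', h5', h6'⟩ | ⟨⟨c', h5', h6'⟩, h7'⟩)
    · have h8 := hbi _ _ (hfun _ _ _ _ hq h5 h5')
      subst h8
      exact hfun _ _ _ _ hq h6 h6'
    · exact absurd (hfun _ _ _ _ hq h5' h5) (h6' n)
    · exact absurd (hfun _ _ _ _ hq h5 h5') (h6 n')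
    · rw [h7, h7']) (by
    intro q hq
    obtain ⟨r, c, hr, h5⟩ := htot q k₀ hq
    by_cases h6 : ∃ n, c = b n
    · obtain ⟨n, rfl⟩ := h6
      obtain ⟨s, a, hs, h7⟩ := htot r (kk n) (htrans _ _ _ hr hq)
      exact ⟨s, a, htrans _ _ _ hs hr, Or.inl ⟨n, hmono _ _ _ _ hs h5, h7⟩⟩
    · push Not at h6
      exact ⟨r, y₀, hr, Or.inr ⟨⟨c, h5, h6⟩, rfl⟩⟩)
  -- the contradiction
  have hnn0 : Int M (fun q : K × INat M => lt q.1 (g q.2)) := by (repeat' (first | with_reducible exact IntF.id | with_reducible exact IntF.fst' | with_reducible exact IntF.snd' | with_reducible exact IntF.const _ | with_reducible exact Int.const _ | assumption | with_reducible apply Int.and | with_reducible apply Int.or | with_reducible apply Int.not | with_reducible apply Int.imp | with_reducible apply Int.iff | with_reducible apply Int.ne | with_reducible apply Int.eq | with_reducible apply Int.mem | with_reducible apply Int.subset | with_reducible apply Int.ltN | with_reducible apply Int.leN | with_reducible_and_instances apply Int.le | with_reducible_and_instances apply Int.lt | with_reducible apply Int.all | with_reducible apply Int.ex | with_reducible apply IntF.fst | with_reducible apply IntF.snd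 | with_reducible apply IntF.app | with_reducible apply IntF.inl | with_reducible apply IntF.inr | with_reducible_and_instances apply IntF.mul | with_reducible_and_instances apply IntF.inv | with_reducible_and_instances apply IntF.add | with_reducible_and_instances apply IntF.sub | with_reducible_and_instances apply IntF.neg | with_reducible_and_instances apply IntF.smul | with_reducible apply Int.fin | with_reducible apply IntF.sep | with_reducible apply IntF.lam | with_reducible apply IntF.insert | with_reducible apply IntF.singleton | with_reducible apply IntF.union | with_reducible apply IntF.iimage | with_reducible apply IntF.ite | with_reducible apply IntF.the | with_reducible apply IntF.irec | with_reducible apply IntF.succ | with_reducible apply IntF.val | with_reducible apply IntF.mk | (with_reducible refine Int.comp ?_ ?_; assumption) | (with_reducible refine Int.comp₂ ?_ ?_ ?_; assumption) | (with_reducible refine Int.comp₃ ?_ ?_ ?_ ?_; assumption) | (with_reducible refine Int.comp₄ ?_ ?_ ?_ ?_ ?_; assumption) | (with_reducible refine IntF.comp ?_ ?_; assumption) | (with_reducible refine IntF.comp₂ ?_ ?_ ?_; assumption) | (with_reducible refine IntF.comp₃ ?_ ?_ ?_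 ?_; assumption) | with_reducible apply IntF.pair))
  obtain ⟨nn, hnn, h5⟩ := exists_lf hNN (γ := K) (r := fun x n => lt x (g n)) hnn0 0
  have hDx : ∀ x, D (nn x, kk (nn x)) x := fun x => hdown _ _ _ (h5 x (hgc x)).1 (hkD _)
  have hF : IntF M (fun x : K => (nn x, e (nn x, kk (nn x)) x)) := by (repeat' (first | with_reducible exact IntF.id | with_reducible exact IntF.fst' | with_reducible exact IntF.snd' | with_reducible exact IntF.const _ | with_reducible exact Int.const _ | assumption | with_reducible apply Int.and | with_reducible apply Int.or | with_reducible apply Int.not | with_reducible apply Int.imp | with_reducible apply Int.iff | with_reducible apply Int.ne | with_reducible apply Int.eq | with_reducible apply Int.mem | with_reducible apply Int.subset | with_reducible apply Int.ltN | with_reducible apply Int.leN | with_reducible_and_instances apply Int.le | with_reducible_and_instances apply Int.lt | with_reducible apply Int.all | with_reducible apply Int.ex | with_reducible apply IntF.fst | with_reducible apply IntF.snd | with_reducible apply IntF.app | with_reducible apply IntF.inl | with_reducible apply IntF.inr | with_reducible_and_instances apply IntF.mul | with_reducible_and_instances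 apply IntF.inv | with_reducible_and_instances apply IntF.add | with_reducible_and_instances apply IntF.sub | with_reducible_and_instances apply IntF.neg | with_reducible_and_instances apply IntF.smul | with_reducible apply Int.fin | with_reducible apply IntF.sep | with_reducible apply IntF.lam | with_reducible apply IntF.insert | with_reducible apply IntF.singleton | with_reducible apply IntF.union | with_reducible apply IntF.iimage | with_reducible apply IntF.ite | with_reducible apply IntF.the | with_reducible apply IntF.irec | with_reducible apply IntF.succ | with_reducible apply IntF.val | with_reducible apply IntF.mk | (with_reducible refine Int.comp ?_ ?_; assumption) | (with_reducible refine Int.comp₂ ?_ ?_ ?_; assumption) | (with_reducible refine Int.comp₃ ?_ ?_ ?_ ?_; assumption) | (with_reducible refine Int.comp₄ ?_ ?_ ?_ ?_ ?_; assumption) | (with_reducible refine IntF.comp ?_ ?_; assumption) | (with_reducible refine IntF.comp₂ ?_ ?_ ?_; assumption) | (with_reducible refine IntF.comp₃ ?_ ?_ ?_ ?_; assumption) | with_reducible apply IntF.pair))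
  refine hu (ctb_comap (ctb_prod Ctb.nat hNc) hF ?_ ?_)
  · intro x y _ _ hxy
    obtain ⟨h6, h7⟩ := Prod.ext_iff.1 hxy
    dsimp only at h6 h7
    have h8 := hDx x
    rw [h6] at h7 h8
    exact hinj _ _ _ h8 (hDx y) h7
  · intro x _
    refine ⟨trivial, ?_⟩
    obtain ⟨q, h6, h7, h8⟩ := (hW _ _).1 (hW' _ _ (hDx x))
    exact ⟨q, h6, Or.inl ⟨_, h7, h8⟩⟩

end

end Pool.Agent.Helper672.ZFA.H158CC
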