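import Pool.Agent.V11246.CDefs
import Pool.Agent.V11246.CdDefs

/-!
# Forcings with the condition ccc_3 in a model of ZF: definitions

The language `LSet` of set theory has one binary relation symbol. In a structure `M` for it,
`Mem x y` says that `x` is an element of `y` in the sense of `M`. `Mem`, `LSet` and `IsOrdPair`
are from `Pool.Agent.Helper672.SIK.Plain`, `App` (the ordered pair of `x` and `y` is an element
of `f`), `IsInj` and `IsOmega` from `Pool.Agent.H310R3.Cards`, `IsOrdinal` and `IsSuccCard` from
`Pool.Agent.V11246.NDefs`, `NameAt` from `Pool.Agent.V11246.CDefs`, `IsCtble` from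
`Pool.Agent.V11246.CdDefs` and the class `ZF` of the models of ZF from
`Pool.Agent.H635R2.Statement`.
-/

namespace Pool.Agent.H158CC

open FirstOrder FirstOrder.Language
open Pool.Agent.Helper672.Plain (LSet Mem)
open Pool.Agent.H310Cards
open Pool.Agent.V11246 (IsCtble IsSuccCard NameAt)

universe u

variable {M : Type u} [LSet.Structure M]

/-- `P` with the relation `r` (`App r p q` says that `p ≤ q`) is a forcing: a preordered set with
a maximum. -/
structure IsForcing (r P : M) : Prop where
  rel : ∀ p q, App r p q → Mem p P ∧ Mem q P
  refl : ∀ p, Mem p P → App r p p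
  trans : ∀ p q s, App r p q → App r q s → App r p s
  top : ∃ t, Mem t P ∧ ∀ p, Mem p P → App r p t

/-- `D` is a predense subset of the forcing `P`: every condition `p` is compatible with some
element `d` of `D`, that is, some condition `c` is below both. -/
def IsPredense (r P D : M) : Prop :=
  (∀ d, Mem d D → Mem d P) ∧ ∀ p, Mem p P → ∃ d c, Mem d D ∧ App r c p ∧ App r c d

/-- The forcing satisfies the condition ccc_3: every predense subset has a countable predense
subset. -/
def IsCCC3 (r P : M) : Prop :=
  ∀ D, IsPredense r P D → ∃ C, (∀ d, Mem d C → Mem d D) ∧ IsCtble C ∧ IsPredense r P C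

/-- The condition `p` of the forcing `P` forces that the set named by `F` restricts to a function
from `b` onto `k`. The set named by `F` is, for a generic filter `G`, the set of the pairs
`(x, y)` such that `(q, (x, y))` is in `F` (that is, `NameAt F q x y`) for some `q` in `G`. -/
structure ForcesOnto (r P p F b k : M) : Prop where
  mem : Mem p P
  func : ∀ s q q' x y y', App r s p → App r s q → App r s q' → Mem x b → Mem y k → Mem y' k →
    NameAt F q x y → NameAt F q' x y' → y = y'
  total : ∀ x s, Mem x b → App r s p → ∃ t q y, App r t s ∧ App r t q ∧ Mem y k ∧ NameAt F q x y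
  onto : ∀ y s, Mem y k → App r s p → ∃ t q x, App r t s ∧ App r t q ∧ Mem x b ∧ NameAt F q x y

/-- The forcing collapses the first uncountable cardinal: some condition forces that some set is a
function from the set `w` of the natural numbers onto `k`, where `k` is the least ordinal that
does not inject into `w`. -/
def CollapsesOmegaOne (r P : M) : Prop :=
  ∃ w k p F, IsOmega w ∧ IsSuccCard k w ∧ ForcesOnto r P p F w k

end Pool.Agent.H158CC
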