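import Pool.Agent.V11246.CohM
import Pool.Agent.H158_CC.Abs
import Pool.Agent.H158_CC.Defs

/-!
# Forcings with the condition ccc_3 in a plain model of ZF
-/

set_option maxHeartbeats 1000000
set_option linter.all false
set_option synthInstance.maxSize 2000

namespace Pool.Agent.Helper672.ZFA.H158CC

open FirstOrder FirstOrder.Language
open H635 (IWO)
open Pool.Agent.H310
open Pool.Agent.H310Cards
open Pool.Agent.Helper672.ZFA.V246
open Pool.Agent.V11246 (IsOrdinal IsSuccCard NameAt IsCtble)
open Pool.Agent.H158CC (IsForcing IsPredense IsCCC3 ForcesOnto CollapsesOmegaOne)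
open Pool.Agent.Helper672.Plain (LSet)
open Pool.Agent.H635Amen (ZF)

universe u

section

attribute [local instance] Helper672.Plain.toL

variable {M : Type u} [LSet.Structure M] [hZ : ZF M]

local instance instModelL7 : IsModel M := Helper672.Plain.isModel_toL

/-- Subsets of a set that inject into the set of the natural numbers give countable
predicates. -/
theorem ctb_of_inj {a b w f : M} (hw : IsOmega w) (hab : ∀ x, Mem x a → Mem x b)
    (hf : IsInj f a w) : Ctb M (fun x : El b => Mem x.1 a) := by
  obtain ⟨φ, h1, h2⟩ := exists_fun (α := El a) (β := INat M) hf.1 (fun x => x.2)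
    fun z hz => (mem_omega hw).1 hz
  have hφi : ∀ x y, φ x = φ y → x = y := by
    intro x y hxy
    refine Subtype.ext (hf.2 _ _ (code (φ x)) ((h2 _ _).1 rfl) ?_)
    rw [hxy]
    exact (h2 _ _).1 rfl
  have h3 : Ctb M (fun _ : El a => True) := ⟨φ, h1, fun x y _ _ => hφi x y⟩
  exact (h3.image (Int.const _) (int_incE hab)).mono fun x hx => ⟨⟨x.1, hx⟩, trivial, rfl⟩

theorem not_collapses {r P : M} (hP : IsForcing r P) (hc : IsCCC3 r P) :
    ¬ CollapsesOmegaOne r P := by
  rintro ⟨w, k, p, F, hw, hs, hF⟩
  have hle : Int M (fun q : El P × El P => App r q.1.1 q.2.1) :=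
    ⟨r, fun q => (app_iff (x := q.1.1) (y := q.2.1)).symm⟩
  obtain ⟨F₀, hF₀, hF₀I⟩ : ∃ F₀ : El P → INat M → El k → Prop,
      (∀ q n a, F₀ q n a ↔ NameAt F (code q) (code n) (code a)) ∧
      Int M (fun q : (El P × INat M) × El k => F₀ q.1.1 q.1.2 q.2) := by
    refine ⟨fun q n a => Mem (op (code q) (op (code n) (code a))) F, fun q n a =>
      nameAt_iff.symm, ?_⟩
    have h1 : Int M (fun q : El P × (INat M × El k) =>
        Mem (op (code q.1) (op (code q.2.1) (code q.2.2))) F) := ⟨F, fun _ => Iff.rfl⟩
    refine Int.comp (p := fun q : El P × (INat M × El k) =>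
        Mem (op (code q.1) (op (code q.2.1) (code q.2.2))) F) h1
        (f := fun q : (El P × INat M) × El k => (q.1.1, (q.1.2, q.2))) ?_
    (repeat' (first | with_reducible exact IntF.id | with_reducible exact IntF.fst' | with_reducible exact IntF.snd' | with_reducible exact IntF.const _ | with_reducible exact Int.const _ | assumption | with_reducible apply Int.and | with_reducible apply Int.or | with_reducible apply Int.not | with_reducible apply Int.imp | with_reducible apply Int.iff | with_reducible apply Int.ne | with_reducible apply Int.eq | with_reducible apply Int.mem | with_reducible apply Int.subset | with_reducible apply Int.ltN | with_reducible apply Int.leN | with_reducible_and_instances apply Int.le | with_reducible_and_instances apply Int.lt | with_reducible apply Int.all | with_reducible apply Int.ex | with_reducible apply IntF.fst | with_reducible apply IntF.snd | with_reducible apply IntF.app | with_reducible apply IntF.inl | with_reducible apply IntF.inr | with_reducible_and_instances apply IntF.mul | with_reducible_and_instances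 apply IntF.inv | with_reducible_and_instances apply IntF.add | with_reducible_and_instances apply IntF.sub | with_reducible_and_instances apply IntF.neg | with_reducible_and_instances apply IntF.smul | with_reducible apply Int.fin | with_reducible apply IntF.sep | with_reducible apply IntF.lam | with_reducible apply IntF.insert | with_reducible apply IntF.singleton | with_reducible apply IntF.union | with_reducible apply IntF.iimage | with_reducible apply IntF.ite | with_reducible apply IntF.the | with_reducible apply IntF.irec | with_reducible apply IntF.succ | with_reducible apply IntF.val | with_reducible apply IntF.mk | (with_reducible refine Int.comp ?_ ?_; assumption) | (with_reducible refine Int.comp₂ ?_ ?_ ?_; assumption) | (with_reducible refine Int.comp₃ ?_ ?_ ?_ ?_; assumption) | (with_reducible refine Int.comp₄ ?_ ?_ ?_ ?_ ?_; assumption) | (with_reducible refine IntF.comp ?_ ?_; assumption) | (with_reducible refine IntF.comp₂ ?_ ?_ ?_; assumption) | (with_reducible refine IntF.comp₃ ?_ ?_ ?_ ?_; assumption) | with_reducible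 apply IntF.pair))
  obtain ⟨le, hle'⟩ : ∃ le : El P → El P → Prop, ∀ a b, le a b ↔ App r a.1 b.1 :=
    ⟨_, fun _ _ => Iff.rfl⟩
  have hleI : Int M (fun q : El P × El P => le q.1 q.2) :=
    hle.congr fun q => (hle' _ _).symm
  have hdec : Int M (fun q : (El P × INat M) × El k => ∃ q₀, le q.1.1 q₀ ∧
      F₀ q₀ q.1.2 q.2) := by (repeat' (first | with_reducible exact IntF.id | with_reducible exact IntF.fst' | with_reducible exact IntF.snd' | with_reducible exact IntF.const _ | with_reducible exact Int.const _ | assumption | with_reducible apply Int.and | with_reducible apply Int.or | with_reducible apply Int.not | with_reducible apply Int.imp | with_reducible apply Int.iff | with_reducible apply Int.ne | with_reducible apply Int.eq | with_reducible apply Int.mem | with_reducible apply Int.subset | with_reducible apply Int.ltN | with_reducible apply Int.leN | with_reducible_and_instances apply Int.le | with_reducible_and_instances apply Int.lt | with_reducible apply Int.all | with_reducible apply Int.ex | with_reducible apply IntF.fst |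 with_reducible apply IntF.snd | with_reducible apply IntF.app | with_reducible apply IntF.inl | with_reducible apply IntF.inr | with_reducible_and_instances apply IntF.mul | with_reducible_and_instances apply IntF.inv | with_reducible_and_instances apply IntF.add | with_reducible_and_instances apply IntF.sub | with_reducible_and_instances apply IntF.neg | with_reducible_and_instances apply IntF.smul | with_reducible apply Int.fin | with_reducible apply IntF.sep | with_reducible apply IntF.lam | with_reducible apply IntF.insert | with_reducible apply IntF.singleton | with_reducible apply IntF.union | with_reducible apply IntF.iimage | with_reducible apply IntF.ite | with_reducible apply IntF.the | with_reducible apply IntF.irec | with_reducible apply IntF.succ | with_reducible apply IntF.val | with_reducible apply IntF.mk | (with_reducible refine Int.comp ?_ ?_; assumption) | (with_reducible refine Int.comp₂ ?_ ?_ ?_; assumption) | (with_reducible refine Int.comp₃ ?_ ?_ ?_ ?_; assumption) | (with_reducible refine Int.comp₄ ?_ ?_ ?_ ?_ ?_;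 assumption) | (with_reducible refine IntF.comp ?_ ?_; assumption) | (with_reducible refine IntF.comp₂ ?_ ?_ ?_; assumption) | (with_reducible refine IntF.comp₃ ?_ ?_ ?_ ?_; assumption) | with_reducible apply IntF.pair))
  have hω : ∀ n : INat M, Mem (code n) w := fun n => (mem_omega hw).2 ⟨n, rfl⟩
  refine no_collapse (M := M) (K := El k) (P := El P)
    (iwo_El fun _ hx => isOrdinal_of_mem hs.ord hx) ?_ ?_ hleI ?_ ?_ ?_
    (dec := fun q n a => ∃ q₀, le q q₀ ∧ F₀ q₀ n a) hdec ⟨p, hF.mem⟩ ?_ ?_ ?_ ?_
  · rintro ⟨e, he, h1⟩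
    exact hs.not_inj ⟨_, isInj_relc he (fun x y hxy => h1 x y trivial trivial hxy)
      fun a => hω _⟩
  · intro a
    obtain ⟨f, hf⟩ := hs.least a.1 a.2
    exact ctb_of_inj hw (fun x hx => hs.ord.1 _ a.2 _ hx) hf
  · intro q
    exact (hle' _ _).2 (hP.refl _ q.2)
  · intro a b c h1 h2
    exact (hle' _ _).2 (hP.trans _ _ _ ((hle' _ _).1 h1) ((hle' _ _).1 h2))
  · intro D hD hpd
    have hm : ∀ z, Mem z (code (M := M) (sep M D)) ↔ ∃ a : El P, D a ∧ a.1 = z := by
      intro z
      rw [mem_codeS]
      constructor
      · rintro ⟨a, h1, h2⟩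
        exact ⟨a, (mem_sep hD).1 h1, h2⟩
      · rintro ⟨a, h1, h2⟩
        exact ⟨a, (mem_sep hD).2 h1, h2⟩
    obtain ⟨C, h1, ⟨w', f, hw', hf⟩, h2, h3⟩ := hc (code (M := M) (sep M D)) ⟨fun d hd => by
        obtain ⟨a, -, rfl⟩ := (hm _).1 hd
        exact a.2, fun p' hp' => by
        obtain ⟨d, h1, s, h2, h3⟩ := hpd ⟨p', hp'⟩
        exact ⟨d.1, s.1, (hm _).2 ⟨d, h1, rfl⟩, (hle' _ _).1 h2, (hle' _ _).1 h3⟩⟩
    refine ⟨fun x => Mem x.1 C, ⟨C, fun _ => Iff.rfl⟩, fun x hx => ?_, ?_, fun x => ?_⟩
    · obtain ⟨a, h4, h5⟩ := (hm _).1 (h1 _ hx)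
      exact Subtype.ext h5 ▸ h4
    · exact ctb_of_inj hw' h2 hf
    · obtain ⟨d, s, h4, h5, h6⟩ := h3 x.1 x.2
      exact ⟨⟨d, h2 _ h4⟩, h4, ⟨s, (hP.rel _ _ h5).1⟩, (hle' _ _).2 h5, (hle' _ _).2 h6⟩
  · rintro q s n a h1 ⟨q₀, h2, h3⟩
    exact ⟨q₀, (hle' _ _).2 (hP.trans _ _ _ ((hle' _ _).1 h1) ((hle' _ _).1 h2)), h3⟩
  · rintro q n a b h1 ⟨q₀, h2, h3⟩ ⟨q₁, h4, h5⟩
    exact Subtype.ext (hF.func q.1 q₀.1 q₁.1 (code n) a.1 b.1 ((hle' _ _).1 h1) ((hle' _ _).1 h2)
      ((hle' _ _).1 h4) (hω n) a.2 b.2 ((hF₀ _ _ _).1 h3) ((hF₀ _ _ _).1 h5))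
  · intro q n h1
    obtain ⟨t, q₀, y, h2, h3, h4, h5⟩ := hF.total (code n) q.1 (hω n) ((hle' _ _).1 h1)
    exact ⟨⟨t, (hP.rel _ _ h2).1⟩, ⟨y, h4⟩, (hle' _ _).2 h2, ⟨q₀, (hP.rel _ _ h3).2⟩,
      (hle' _ _).2 h3, (hF₀ _ _ _).2 h5⟩
  · intro q a h1
    obtain ⟨t, q₀, x, h2, h3, h4, h5⟩ := hF.onto a.1 q.1 a.2 ((hle' _ _).1 h1)
    obtain ⟨n, rfl⟩ := (mem_omega hw).1 h4
    exact ⟨⟨t, (hP.rel _ _ h2).1⟩, n, (hle' _ _).2 h2, ⟨q₀, (hP.rel _ _ h3).2⟩,
      (hle' _ _).2 h3, (hF₀ _ _ _).2 h5⟩

end

end Pool.Agent.Helper672.ZFA.H158CC
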